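import Mathlib

/-!
# Non-adaptive triple queries for a non-minority ball: for even `n` the minimum co-degree is `0`

For even `n ≥ 4` we leave one ball out and ask all triples of the remaining `n - 1` balls.
The answers determine a ball whose colour occurs at least `n / 2` times among these `n - 1`
balls.  So `m(n) = 0` for every even `n ≥ 4`, and `|m(n) - n/2|` is unbounded.
-/

namespace Pool.Agent.Results.MP_d92cd9_co.EvenZero

open Finset

/-- `b` is a non-minority ball of the colouring `c`: at least `n / 2` balls have the colour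
of `b`. -/
def NonMinority {n : ℕ} (c : Fin n → Bool) (b : Fin n) : Prop :=
  (n : ℝ) / 2 ≤ ((univ.filter (fun x => c x = c b)).card : ℝ)

/-- `a` is a valid answer to the query `T` under the colouring `c`: `a ∈ T` and the colour of `a`
is shared by another ball of `T`. -/
def ValidAnswer {n : ℕ} (c : Fin n → Bool) (T : Finset (Fin n)) (a : Fin n) : Prop :=
  a ∈ T ∧ ∃ b ∈ T, b ≠ a ∧ c b = c a

/-- The query set `Q` determines a non-minority ball: some map `f` from answer functions to balls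
gives a non-minority ball for every colouring `c` and every answer function `α` valid for `c`. -/
def Determines {n : ℕ} (Q : Finset (Finset (Fin n))) : Prop :=
  ∃ f : (Q → Fin n) → Fin n, ∀ (c : Fin n → Bool) (α : Q → Fin n),
    (∀ T : Q, ValidAnswer c T.1 (α T)) → NonMinority c (f α)

/-- The co-degree `d_Q(x, y)`: the number of queries containing both `x` and `y`. -/
def coDegree {n : ℕ} (Q : Finset (Finset (Fin n))) (x y : Fin n) : ℕ :=
  (Q.filter (fun T => x ∈ T ∧ y ∈ T)).card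

/-- The set of the values `δ₂(Q)` (minimum co-degree over all pairs of distinct balls) taken over
all sets `Q` of triples that determine a non-minority ball.  By definition `m(n)` is its least
element. -/
def minCoDegrees (n : ℕ) : Set ℕ :=
  {d | ∃ Q : Finset (Finset (Fin n)), (∀ T ∈ Q, T.card = 3) ∧ Determines Q ∧
    IsLeast {e | ∃ x y : Fin n, x ≠ y ∧ coDegree Q x y = e} d}

/-- `S` is a possible minority set (among the balls other than `x₀`) for the answers `α`. -/
def Good {n : ℕ} (k : ℕ) (x₀ : Fin n) (α : Finset (Fin n) → Fin n) (S : Finset (Fin n)) : Prop :=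
  x₀ ∉ S ∧ S.card + 1 ≤ k ∧ ∀ T : Finset (Fin n), T.card = 3 → x₀ ∉ T →
    (α T ∈ T ∧ ∃ b ∈ T, b ≠ α T ∧ (b ∈ S ↔ α T ∈ S))

theorem bad {n : ℕ} {k : ℕ} {x₀ : Fin n} {α : Finset (Fin n) → Fin n} {S₁ S₂ S₃ : Finset (Fin n)}
    (h1 : Good k x₀ α S₁) (h2 : Good k x₀ α S₂) (h3 : Good k x₀ α S₃) {p q r : Fin n}
    (hp : p ≠ x₀) (hq : q ≠ x₀) (hr : r ≠ x₀) (hpq : p ≠ q) (hpr : p ≠ r) (hqr : q ≠ r)
    (l1 : (q ∈ S₁ ↔ r ∈ S₁) ∧ ¬ (p ∈ S₁ ↔ q ∈ S₁))
    (l2 : (p ∈ S₂ ↔ r ∈ S₂) ∧ ¬ (q ∈ S₂ ↔ p ∈ S₂))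
    (l3 : (p ∈ S₃ ↔ q ∈ S₃) ∧ ¬ (r ∈ S₃ ↔ p ∈ S₃)) : False := by
  have hT3 : ({p, q, r} : Finset (Fin n)).card = 3 := by
    rw [Finset.card_eq_three]
    exact ⟨p, q, r, hpq, hpr, hqr, rfl⟩
  have hT0 : x₀ ∉ ({p, q, r} : Finset (Fin n)) := by
    simp only [Finset.mem_insert, Finset.mem_singleton]
    rintro (h | h | h)
    · exact hp h.symm
    · exact hq h.symm
    · exact hr h.symm
  obtain ⟨ha, b1, hb1, hb1', hb1''⟩ := h1.2.2 _ hT3 hT0
  obtain ⟨-, b2, hb2, hb2', hb2''⟩ := h2.2.2 _ hT3 hT0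
  obtain ⟨-, b3, hb3, hb3', hb3''⟩ := h3.2.2 _ hT3 hT0
  simp only [Finset.mem_insert, Finset.mem_singleton] at ha hb1 hb2 hb3
  rcases ha with ha | ha | ha
  · rw [ha] at hb1' hb1''
    rcases hb1 with h | h | h
    · exact hb1' h
    · rw [h] at hb1''; exact l1.2 hb1''.symm
    · rw [h] at hb1''; exact l1.2 (hb1''.symm.trans l1.1.symm)
  · rw [ha] at hb2' hb2''
    rcases hb2 with h | h | h
    · rw [h] at hb2''; exact l2.2 hb2''.symm
    · exact hb2' h
    · rw [h] at hb2''; exact l2.2 (hb2''.symm.trans l2.1.symm)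
  · rw [ha] at hb3' hb3''
    rcases hb3 with h | h | h
    · rw [h] at hb3''; exact l3.2 hb3''.symm
    · rw [h] at hb3''; exact l3.2 (hb3''.symm.trans l3.1.symm)
    · exact hb3' h

/-- Some ball other than `x₀` lies in no possible minority set. -/
theorem exists_ball {n k : ℕ} (hn : n = 2 * k) (hk : 2 ≤ k) (x₀ : Fin n)
    (α : Finset (Fin n) → Fin n) :
    ∃ x : Fin n, x ≠ x₀ ∧ ∀ S, Good k x₀ α S → x ∉ S := by
  classical
  -- the finite family of possible minority sets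
  let F : Finset (Finset (Fin n)) := univ.filter (fun S => Good k x₀ α S)
  have hcard : (univ.erase x₀ : Finset (Fin n)).card = 2 * k - 1 := by
    rw [Finset.card_erase_of_mem (mem_univ _), Finset.card_univ, Fintype.card_fin, hn]
  by_cases hF : F.Nonempty
  swap
  · have hpos : 0 < (univ.erase x₀ : Finset (Fin n)).card := by rw [hcard]; omega
    obtain ⟨x, hx⟩ := Finset.card_pos.mp hpos
    refine ⟨x, (Finset.mem_erase.mp hx).1, fun S hS => ?_⟩
    exact absurd ⟨S, by simp [F, hS]⟩ hF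
  obtain ⟨S₁, hS1F, hmax1⟩ := Finset.exists_max_image F Finset.card hF
  obtain ⟨S₂, hS2F, hmax2⟩ := Finset.exists_max_image F (fun S => (S₁ ∪ S).card) hF
  have h1 : Good k x₀ α S₁ := (Finset.mem_filter.mp hS1F).2
  have h2 : Good k x₀ α S₂ := (Finset.mem_filter.mp hS2F).2
  have hun : (S₁ ∪ S₂).card < (univ.erase x₀ : Finset (Fin n)).card := by
    have := Finset.card_union_le S₁ S₂
    have := h1.2.1
    have := h2.2.1
    rw [hcard]; omega
  obtain ⟨x, hx, hx12⟩ := Finset.exists_mem_notMem_of_card_lt_card hun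
  have hx0 : x ≠ x₀ := (Finset.mem_erase.mp hx).1
  rw [Finset.mem_union, not_or] at hx12
  obtain ⟨hx1, hx2⟩ := hx12
  refine ⟨x, hx0, fun S₃ h3 hx3 => ?_⟩
  have hS3F : S₃ ∈ F := by simp [F, h3]
  have hmax2' : (S₁ ∪ S₃).card ≤ (S₁ ∪ S₂).card := hmax2 S₃ hS3F
  -- a ball `y` in `S₂` only
  obtain ⟨y, hy2, hy1, hy3⟩ : ∃ y, y ∈ S₂ ∧ y ∉ S₁ ∧ y ∉ S₃ := by
    by_contra hcon
    push Not at hcon
    have hsub : S₁ ∪ S₂ ⊂ S₁ ∪ S₃ := by
      rw [Finset.ssubset_iff_of_subset]
      · exact ⟨x, by simp [hx3], by simp [hx1, hx2]⟩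
      · intro z hz
        rw [Finset.mem_union] at hz ⊢
        rcases hz with hz | hz
        · exact Or.inl hz
        · by_cases hz1 : z ∈ S₁
          · exact Or.inl hz1
          · exact Or.inr (hcon z hz hz1)
    exact absurd (Finset.card_lt_card hsub) (not_lt.mpr hmax2')
  have hy0 : y ≠ x₀ := fun h => h2.1 (h ▸ hy2)
  have hxy : x ≠ y := fun h => hy3 (h ▸ hx3)
  -- every ball of `S₁` is in exactly one of `S₂`, `S₃`
  have hA : ∀ r ∈ S₁, ¬ (r ∈ S₂ ↔ r ∈ S₃) := by
    intro r hr hrr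
    have hr0 : r ≠ x₀ := fun h => h1.1 (h ▸ hr)
    have hrx : r ≠ x := fun h => hx1 (h ▸ hr)
    have hry : r ≠ y := fun h => hy1 (h ▸ hr)
    by_cases hr2 : r ∈ S₂
    · have hr3 := hrr.mp hr2
      -- `r` alone in `S₁`, `x` alone w.r.t. `S₂`, `y` alone w.r.t. `S₃`
      exact bad h1 h2 h3 hr0 hx0 hy0 hrx hry hxy (by simp [hx1, hy1, hr])
        (by simp [hr2, hy2, hx2]) (by simp [hr3, hx3, hy3])
    · have hr3 : r ∉ S₃ := fun h => hr2 (hrr.mpr h)
      exact bad h1 h2 h3 hr0 hy0 hx0 hry hrx hxy.symm (by simp [hx1, hy1, hr])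
        (by simp [hr2, hy2, hx2]) (by simp [hr3, hx3, hy3])
  -- balls `p ∈ S₁ ∩ S₃` and `q ∈ S₁ ∩ S₂`
  obtain ⟨p, hp1, hp2⟩ : ∃ p, p ∈ S₁ ∧ p ∉ S₂ := by
    by_contra hcon
    push Not at hcon
    have hsub : S₁ ⊂ S₂ := by
      rw [Finset.ssubset_iff_of_subset hcon]
      exact ⟨y, hy2, hy1⟩
    exact absurd (Finset.card_lt_card hsub) (not_lt.mpr (hmax1 S₂ hS2F))
  obtain ⟨q, hq1, hq3⟩ : ∃ q, q ∈ S₁ ∧ q ∉ S₃ := by
    by_contra hcon
    push Not at hcon
    have hsub : S₁ ⊂ S₃ := by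
      rw [Finset.ssubset_iff_of_subset hcon]
      exact ⟨x, hx3, hx1⟩
    exact absurd (Finset.card_lt_card hsub) (not_lt.mpr (hmax1 S₃ hS3F))
  have hp3 : p ∈ S₃ := by have := hA p hp1; tauto
  have hq2 : q ∈ S₂ := by have := hA q hq1; tauto
  have hp0 : p ≠ x₀ := fun h => h1.1 (h ▸ hp1)
  have hq0 : q ≠ x₀ := fun h => h1.1 (h ▸ hq1)
  have hpq : p ≠ q := fun h => hp2 (h ▸ hq2)
  -- `S₂ ∪ S₃` contains all balls but `x₀`
  have hcover : (univ.erase x₀ : Finset (Fin n)) ⊆ S₂ ∪ S₃ := by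
    intro v hv
    have hv0 : v ≠ x₀ := (Finset.mem_erase.mp hv).1
    by_contra hvn
    rw [Finset.mem_union, not_or] at hvn
    obtain ⟨hv2, hv3⟩ := hvn
    have hv1 : v ∉ S₁ := by
      intro h
      have := hA v h
      tauto
    have hvp : v ≠ p := fun h => hv1 (h ▸ hp1)
    have hvq : v ≠ q := fun h => hv1 (h ▸ hq1)
    exact bad h1 h2 h3 hv0 hq0 hp0 hvq hvp hpq.symm (by simp [hv1, hp1, hq1])
      (by simp [hv2, hp2, hq2]) (by simp [hv3, hp3, hq3])
  have := Finset.card_le_card hcover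
  have h4 := Finset.card_union_le S₂ S₃
  have := h2.2.1
  have := h3.2.1
  omega

/-- All triples avoiding the ball `x₀` determine a non-minority ball when `n` is even. -/
theorem determines_avoiding {n k : ℕ} (hn : n = 2 * k) (hk : 2 ≤ k) (x₀ : Fin n) :
    Determines ((univ : Finset (Finset (Fin n))).filter (fun T => T.card = 3 ∧ x₀ ∉ T)) := by
  classical
  set Q : Finset (Finset (Fin n)) := univ.filter (fun T => T.card = 3 ∧ x₀ ∉ T) with hQ
  -- extend an answer function to all sets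
  let ext : (Q → Fin n) → Finset (Fin n) → Fin n :=
    fun α T => if h : T ∈ Q then α ⟨T, h⟩ else x₀
  refine ⟨fun α => (exists_ball hn hk x₀ (ext α)).choose, fun c α hα => ?_⟩
  obtain ⟨hxx0, hx⟩ := (exists_ball hn hk x₀ (ext α)).choose_spec
  set x := (exists_ball hn hk x₀ (ext α)).choose with hxdef
  -- the colour classes among the balls other than `x₀`
  have hvalid : ∀ T : Finset (Fin n), T.card = 3 → x₀ ∉ T → ValidAnswer c T (ext α T) := by
    intro T hT hT0
    have hTQ : T ∈ Q := by simp [hQ, hT, hT0]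
    have : ext α T = α ⟨T, hTQ⟩ := by simp only [ext, hTQ, dif_pos]
    rw [this]
    exact hα ⟨T, hTQ⟩
  -- the class of `x` among the other balls is not small
  let S : Finset (Fin n) := univ.filter (fun v => v ≠ x₀ ∧ c v = c x)
  have hxS : x ∈ S := by simp [S, hxx0]
  have hSbig : k ≤ S.card := by
    by_contra hlt
    push Not at hlt
    refine hx S ⟨by simp [S], by omega, fun T hT hT0 => ?_⟩ hxS
    obtain ⟨ha, b, hb, hba, hbc⟩ := hvalid T hT hT0
    refine ⟨ha, b, hb, hba, ?_⟩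
    have hb0 : b ≠ x₀ := fun h => hT0 (h ▸ hb)
    have ha0 : ext α T ≠ x₀ := fun h => hT0 (h ▸ ha)
    simp [S, hb0, ha0, hbc]
  unfold NonMinority
  have hsub : S ⊆ univ.filter (fun v => c v = c x) := by
    intro v hv
    simp only [S, Finset.mem_filter, Finset.mem_univ, true_and] at hv ⊢
    exact hv.2
  have hle := Finset.card_le_card hsub
  have : (k : ℝ) ≤ ((univ.filter (fun v => c v = c x)).card : ℝ) := by
    exact_mod_cast hSbig.trans hle
  have hnk : (n : ℝ) = 2 * (k : ℝ) := by rw [hn]; push_cast; ring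
  change (n : ℝ) / 2 ≤ ((univ.filter (fun v => c v = c x)).card : ℝ)
  linarith

/-- For every even `n ≥ 4` the least element `m(n)` of `minCoDegrees n` is `0`; in particular there
is no constant `C` with `|m(n) - n/2| ≤ C` for all `n ≥ 3`. -/
theorem result :
    (∀ n : ℕ, 4 ≤ n → Even n → IsLeast (minCoDegrees n) 0) ∧
    ∀ C : ℝ, ∃ n : ℕ, 3 ≤ n ∧ ∃ m : ℕ, IsLeast (minCoDegrees n) m ∧ C < |(m : ℝ) - (n : ℝ) / 2| := by
  have main : ∀ n : ℕ, 4 ≤ n → Even n → IsLeast (minCoDegrees n) 0 := by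
    intro n hn4 heven
    obtain ⟨k, hk⟩ := heven
    have hn : n = 2 * k := by omega
    refine ⟨?_, fun d _ => Nat.zero_le d⟩
    have hpos : 0 < n := by omega
    let x₀ : Fin n := ⟨0, by omega⟩
    let x₁ : Fin n := ⟨1, by omega⟩
    refine ⟨_, ?_, determines_avoiding hn (by omega) x₀, ?_, fun e _ => Nat.zero_le e⟩
    · intro T hT
      simp only [Finset.mem_filter, Finset.mem_univ, true_and] at hT
      exact hT.1
    · refine ⟨x₀, x₁, by simp [x₀, x₁, Fin.ext_iff], ?_⟩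
      unfold coDegree
      rw [Finset.card_eq_zero, Finset.filter_eq_empty_iff]
      intro T hT
      simp only [Finset.mem_filter, Finset.mem_univ, true_and] at hT
      exact fun h => hT.2 h.1
  refine ⟨main, fun C => ?_⟩
  obtain ⟨N, hN⟩ := exists_nat_gt C
  refine ⟨2 * (N + 2), by omega, 0, main _ (by omega) (even_two_mul _), ?_⟩
  push_cast
  rw [show (0 : ℝ) - 2 * ((N : ℝ) + 2) / 2 = -((N : ℝ) + 2) by ring, abs_neg,
    abs_of_nonneg (by positivity)]
  linarith

end Pool.Agent.Results.MP_d92cd9_co.EvenZero
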