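import Mathlib

/-!
# Non-adaptive triple queries for a non-minority ball, even `n`: pairs of co-degree `1`

Let `n = 2 k`, `z` a ball and `Z` a graph on the other balls.  We ask all triples that contain `z`
or contain no edge of `Z`.  If the degrees of `Z` are small, these queries determine a non-minority
ball if and only if `Z` has no cycle of length four.
-/

set_option autoImplicit false

namespace Pool.Agent.Results.MP_d92cd9_co.FourCycles

open Finset

/-- `b` is a non-minority ball of the colouring `c`: at least `n / 2` balls have the colour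
of `b`. -/
def NonMinority {n : ℕ} (c : Fin n → Bool) (b : Fin n) : Prop :=
  (n : ℝ) / 2 ≤ ((univ.filter (fun x => c x = c b)).card : ℝ)

/-- `a` is a valid answer to the query `T` under the colouring `c`: `a ∈ T` and the colour of `a`
is shared by another ball of `T`. -/
def ValidAnswer {n : ℕ} (c : Fin n → Bool) (T : Finset (Fin n)) (a : Fin n) : Prop :=
  a ∈ T ∧ ∃ b ∈ T, b ≠ a ∧ c b = c a

/-- The query set `Q` determines a non-minority ball: some map `f` from answer functions to balls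
gives a non-minority ball for every colouring `c` and every answer function `α` valid for `c`. -/
def Determines {n : ℕ} (Q : Finset (Finset (Fin n))) : Prop :=
  ∃ f : (Q → Fin n) → Fin n, ∀ (c : Fin n → Bool) (α : Q → Fin n),
    (∀ T : Q, ValidAnswer c T.1 (α T)) → NonMinority c (f α)

/-- The co-degree `d_Q(x, y)`: the number of queries containing both `x` and `y`. -/
def coDegree {n : ℕ} (Q : Finset (Finset (Fin n))) (x y : Fin n) : ℕ :=
  (Q.filter (fun T => x ∈ T ∧ y ∈ T)).card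

open scoped Classical in
/-- All triples that contain `z` or contain no edge of `Z`. -/
noncomputable def queries {n : ℕ} (z : Fin n) (Z : SimpleGraph (Fin n)) :
    Finset (Finset (Fin n)) :=
  univ.filter (fun T => T.card = 3 ∧ (z ∈ T ∨ ∀ x ∈ T, ∀ y ∈ T, ¬ Z.Adj x y))

/-- `S` is a possible minority set for the answers `α`. -/
def Good {n : ℕ} (Q : Finset (Finset (Fin n))) (k : ℕ) (α : Q → Fin n)
    (S : Finset (Fin n)) : Prop :=
  S.card + 1 ≤ k ∧ ∀ T : Q, α T ∈ T.1 ∧ ∃ b ∈ T.1, b ≠ α T ∧ (b ∈ S ↔ α T ∈ S)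

theorem bad {n : ℕ} {k : ℕ} {Q : Finset (Finset (Fin n))} {α : Q → Fin n}
    {S₁ S₂ S₃ : Finset (Fin n)} (h1 : Good Q k α S₁) (h2 : Good Q k α S₂) (h3 : Good Q k α S₃)
    {p q r : Fin n} (hT : ({p, q, r} : Finset (Fin n)) ∈ Q)
    (l1 : (q ∈ S₁ ↔ r ∈ S₁) ∧ ¬ (p ∈ S₁ ↔ q ∈ S₁))
    (l2 : (p ∈ S₂ ↔ r ∈ S₂) ∧ ¬ (q ∈ S₂ ↔ p ∈ S₂))
    (l3 : (p ∈ S₃ ↔ q ∈ S₃) ∧ ¬ (r ∈ S₃ ↔ p ∈ S₃)) : False := by
  obtain ⟨ha, b1, hb1, hb1', hb1''⟩ := h1.2 ⟨_, hT⟩
  obtain ⟨-, b2, hb2, hb2', hb2''⟩ := h2.2 ⟨_, hT⟩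
  obtain ⟨-, b3, hb3, hb3', hb3''⟩ := h3.2 ⟨_, hT⟩
  simp only [Finset.mem_insert, Finset.mem_singleton] at ha hb1 hb2 hb3
  rcases ha with ha | ha | ha
  · rw [ha] at hb1' hb1''
    rcases hb1 with h | h | h
    · exact hb1' h
    · rw [h] at hb1''; exact l1.2 hb1''.symm
    · rw [h] at hb1''; exact l1.2 (hb1''.symm.trans l1.1.symm)
  · rw [ha] at hb2' hb2''
    rcases hb2 with h | h | h
    · rw [h] at hb2''; exact l2.2 hb2''.symm
    · exact hb2' h
    · rw [h] at hb2''; exact l2.2 (hb2''.symm.trans l2.1.symm)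
  · rw [ha] at hb3' hb3''
    rcases hb3 with h | h | h
    · rw [h] at hb3''; exact l3.2 hb3''.symm
    · rw [h] at hb3''; exact l3.2 (hb3''.symm.trans l3.1.symm)
    · exact hb3' h

theorem triple_mem {n : ℕ} {z : Fin n} {Z : SimpleGraph (Fin n)} {p q r : Fin n}
    (hpq : p ≠ q) (hpr : p ≠ r) (hqr : q ≠ r)
    (h : (p = z) ∨ (¬ Z.Adj p q ∧ ¬ Z.Adj p r ∧ ¬ Z.Adj q r)) :
    ({p, q, r} : Finset (Fin n)) ∈ queries z Z := by
  classical
  unfold queries
  simp only [Finset.mem_filter, Finset.mem_univ, true_and]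
  refine ⟨Finset.card_eq_three.2 ⟨p, q, r, hpq, hpr, hqr, rfl⟩, ?_⟩
  rcases h with h | ⟨h1, h2, h3⟩
  · left; simp [h]
  · right
    intro x hx y hy
    simp only [Finset.mem_insert, Finset.mem_singleton] at hx hy
    rcases hx with rfl | rfl | rfl <;> rcases hy with rfl | rfl | rfl
    · exact Z.loopless.irrefl _
    · exact h1
    · exact h2
    · exact fun h => h1 h.symm
    · exact Z.loopless.irrefl _
    · exact h3
    · exact fun h => h2 h.symm
    · exact fun h => h3 h.symm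
    · exact Z.loopless.irrefl _

/-- the graph has a cycle of length four -/
def HasC4 {n : ℕ} (Z : SimpleGraph (Fin n)) : Prop :=
  ∃ x u y v : Fin n, x ≠ y ∧ u ≠ v ∧ Z.Adj x u ∧ Z.Adj u y ∧ Z.Adj y v ∧ Z.Adj v x


/-- the private part of the first set -/
def priv {n : ℕ} (S₁ S₂ S₃ : Finset (Fin n)) : Finset (Fin n) := S₁ \ (S₂ ∪ S₃)

theorem mem_priv {n : ℕ} {S₁ S₂ S₃ : Finset (Fin n)} {x : Fin n} :
    x ∈ priv S₁ S₂ S₃ ↔ x ∈ S₁ ∧ x ∉ S₂ ∧ x ∉ S₃ := by
  unfold priv
  simp only [Finset.mem_sdiff, Finset.mem_union, not_or]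

open scoped Classical in
theorem core {n k D : ℕ} {z : Fin n} {Z : SimpleGraph (Fin n)}
    (hd : ∀ v, (univ.filter (fun w => Z.Adj v w)).card ≤ D) {α : queries z Z → Fin n}
    {S₁ S₂ S₃ : Finset (Fin n)} (h1 : Good (queries z Z) k α S₁) (h2 : Good (queries z Z) k α S₂)
    (h3 : Good (queries z Z) k α S₃) (hX : 2 * D < (priv S₁ S₂ S₃).card)
    (hY : 2 ≤ (priv S₂ S₁ S₃).card) (hW : 2 ≤ (priv S₃ S₁ S₂).card) : HasC4 Z := by
  have key : ∀ y ∈ priv S₂ S₁ S₃, ∀ w ∈ priv S₃ S₁ S₂, Z.Adj y w := by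
    intro y hy w hw
    by_contra hyw
    have hcard : ((univ.filter (fun t => Z.Adj y t)) ∪ (univ.filter (fun t => Z.Adj w t))).card
        < (priv S₁ S₂ S₃).card := by
      have := Finset.card_union_le (univ.filter (fun t => Z.Adj y t))
        (univ.filter (fun t => Z.Adj w t))
      have := hd y
      have := hd w
      omega
    obtain ⟨x, hx, hx'⟩ := Finset.exists_mem_notMem_of_card_lt_card hcard
    simp only [Finset.mem_union, Finset.mem_filter, Finset.mem_univ, true_and, not_or] at hx'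
    rw [mem_priv] at hx hy hw
    have hxy : x ≠ y := fun h => hy.2.1 (h ▸ hx.1)
    have hxw : x ≠ w := fun h => hw.2.1 (h ▸ hx.1)
    have hyw' : y ≠ w := fun h => hw.2.2 (h ▸ hy.1)
    refine bad (p := x) (q := y) (r := w) h1 h2 h3 (triple_mem hxy hxw hyw' (Or.inr
      ⟨fun h => hx'.1 h.symm, fun h => hx'.2 h.symm, hyw⟩)) ?_ ?_ ?_
    · simp [hx.1, hy.2.1, hw.2.1]
    · simp [hx.2.1, hy.1, hw.2.2]
    · simp [hx.2.2, hy.2.2, hw.1]
  obtain ⟨y₁, hy₁, y₂, hy₂, hy⟩ := Finset.one_lt_card.1 (show 1 < _ by omega : 1 < (priv S₂ S₁ S₃).card)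
  obtain ⟨w₁, hw₁, w₂, hw₂, hw⟩ := Finset.one_lt_card.1 (show 1 < _ by omega : 1 < (priv S₃ S₁ S₂).card)
  exact ⟨y₁, w₁, y₂, w₂, hy, hw, key _ hy₁ _ hw₁, (key _ hy₂ _ hw₁).symm, key _ hy₂ _ hw₂,
    (key _ hy₁ _ hw₂).symm⟩

theorem priv_comm {n : ℕ} (S₁ S₂ S₃ : Finset (Fin n)) : priv S₁ S₂ S₃ = priv S₁ S₃ S₂ := by
  unfold priv
  rw [Finset.union_comm]

theorem two_le_priv {n k : ℕ} (hn : n = 2 * k) {S₁ S₂ S₃ : Finset (Fin n)}
    (hc : ∀ x, x ∈ S₁ ∨ x ∈ S₂ ∨ x ∈ S₃) (h2 : S₂.card + 1 ≤ k) (h3 : S₃.card + 1 ≤ k) :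
    2 ≤ (priv S₁ S₂ S₃).card := by
  have h : (univ : Finset (Fin n)) ⊆ priv S₁ S₂ S₃ ∪ (S₂ ∪ S₃) := by
    intro x _
    rw [Finset.mem_union, Finset.mem_union, mem_priv]
    have := hc x
    tauto
  have h4 := Finset.card_le_card h
  rw [Finset.card_univ, Fintype.card_fin] at h4
  have h5 := Finset.card_union_le (priv S₁ S₂ S₃) (S₂ ∪ S₃)
  have h6 := Finset.card_union_le S₂ S₃
  omega

theorem sum_priv {n k : ℕ} (hn : n = 2 * k) {S₁ S₂ S₃ : Finset (Fin n)}
    (hc : ∀ x, x ∈ S₁ ∨ x ∈ S₂ ∨ x ∈ S₃) (h1 : S₁.card + 1 ≤ k) (h2 : S₂.card + 1 ≤ k)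
    (h3 : S₃.card + 1 ≤ k) :
    k + 3 ≤ (priv S₁ S₂ S₃).card + (priv S₂ S₁ S₃).card + (priv S₃ S₁ S₂).card := by
  have h : ∀ x : Fin n, 2 ≤ (if x ∈ S₁ then 1 else 0) + (if x ∈ S₂ then 1 else 0)
      + (if x ∈ S₃ then 1 else 0) + (if x ∈ priv S₁ S₂ S₃ then 1 else 0)
      + (if x ∈ priv S₂ S₁ S₃ then 1 else 0) + (if x ∈ priv S₃ S₁ S₂ then 1 else 0) := by
    intro x
    simp only [mem_priv]
    have := hc x
    by_cases a1 : x ∈ S₁ <;> by_cases a2 : x ∈ S₂ <;> by_cases a3 : x ∈ S₃ <;> simp_all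
  have h4 := Finset.sum_le_sum (s := (univ : Finset (Fin n))) fun x _ => h x
  simp only [Finset.sum_add_distrib, Finset.sum_boole, Finset.sum_const, Finset.card_univ,
    Fintype.card_fin, smul_eq_mul, Nat.cast_id, Finset.filter_univ_mem] at h4
  omega


open scoped Classical in
/-- three possible minority sets covering all the balls -/
theorem three_cover {n k : ℕ} (hn : n = 2 * k) (hk : 4 ≤ k) {z : Fin n} {Z : SimpleGraph (Fin n)}
    {α : queries z Z → Fin n} (hcov : ∀ x, ∃ S, Good (queries z Z) k α S ∧ x ∈ S) :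
    ∃ S₁ S₂ S₃, Good (queries z Z) k α S₁ ∧ Good (queries z Z) k α S₂ ∧
      Good (queries z Z) k α S₃ ∧ ∀ x, x ∈ S₁ ∨ x ∈ S₂ ∨ x ∈ S₃ := by
  let F : Finset (Finset (Fin n)) := univ.filter (fun S => Good (queries z Z) k α S)
  let P : Finset (Finset (Finset (Fin n))) :=
    F.powerset.filter (fun C => ∀ x, ∃ S ∈ C, x ∈ S)
  have hP : P.Nonempty := by
    refine ⟨F, ?_⟩
    simp only [P, Finset.mem_filter, Finset.mem_powerset, Finset.Subset.refl, true_and]
    intro x
    obtain ⟨S, hS, hx⟩ := hcov x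
    exact ⟨S, by simp [F, hS], hx⟩
  obtain ⟨C, hC, hmin⟩ := Finset.exists_min_image P Finset.card hP
  obtain ⟨hCF, hCc⟩ := Finset.mem_filter.1 hC
  rw [Finset.mem_powerset] at hCF
  have hG : ∀ S ∈ C, Good (queries z Z) k α S := fun S hS => (Finset.mem_filter.1 (hCF hS)).2
  -- private elements
  have hp : ∀ S ∈ C, ∃ p ∈ S, ∀ S' ∈ C, S' ≠ S → p ∉ S' := by
    intro S hS
    by_contra hcon
    push Not at hcon
    have h1 : C.erase S ∈ P := by
      simp only [P, Finset.mem_filter, Finset.mem_powerset]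
      refine ⟨(Finset.erase_subset _ _).trans hCF, fun x => ?_⟩
      obtain ⟨S', hS', hx⟩ := hCc x
      by_cases h : S' = S
      · obtain ⟨S'', h1, h2, h3⟩ := hcon x (h ▸ hx)
        exact ⟨S'', Finset.mem_erase.2 ⟨h2, h1⟩, h3⟩
      · exact ⟨S', Finset.mem_erase.2 ⟨h, hS'⟩, hx⟩
    have h2 := hmin _ h1
    have h3 := Finset.card_erase_lt_of_mem hS
    omega
  -- at least three sets
  have hge : 3 ≤ C.card := by
    have h : (univ : Finset (Fin n)) ⊆ C.biUnion id := by
      intro x _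
      obtain ⟨S, hS, hx⟩ := hCc x
      exact Finset.mem_biUnion.2 ⟨S, hS, hx⟩
    have h1 := Finset.card_le_card h
    rw [Finset.card_univ, Fintype.card_fin] at h1
    have h2 : (C.biUnion id).card ≤ C.card * (k - 1) :=
      Finset.card_biUnion_le_card_mul _ _ _ fun S hS => by
        have := (hG S hS).1
        simp only [id]
        omega
    by_contra hlt
    have h3 : C.card * (k - 1) ≤ 2 * (k - 1) := Nat.mul_le_mul_right _ (by omega)
    omega
  -- a set of the cover contains `z`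
  obtain ⟨A, hA, hzA⟩ := hCc z
  have hle1 : (C.filter (fun S => z ∉ S)).card ≤ 1 := by
    rw [Finset.card_le_one]
    intro S hS S' hS'
    by_contra hne
    obtain ⟨hS, hzS⟩ := Finset.mem_filter.1 hS
    obtain ⟨hS', hzS'⟩ := Finset.mem_filter.1 hS'
    obtain ⟨p, hpS, hp'⟩ := hp S hS
    obtain ⟨q, hqS, hq'⟩ := hp S' hS'
    have hAS : A ≠ S := fun h => hzS (h ▸ hzA)
    have hAS' : A ≠ S' := fun h => hzS' (h ▸ hzA)
    have a1 := hp' A hA hAS
    have a2 := hp' S' hS' (Ne.symm hne)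
    have a3 := hq' A hA hAS'
    have a4 := hq' S hS hne
    have hzp : z ≠ p := fun h => hzS (h ▸ hpS)
    have hzq : z ≠ q := fun h => hzS' (h ▸ hqS)
    have hpq : p ≠ q := fun h => a4 (h ▸ hpS)
    refine bad (p := z) (q := p) (r := q) (hG A hA) (hG S hS) (hG S' hS')
      (triple_mem hzp hzq hpq (Or.inl rfl)) ?_ ?_ ?_
    · simp [hzA, a1, a3]
    · simp [hzS, hpS, a4]
    · simp [hzS', a2, hqS]
  have hle2 : (C.filter (fun S => z ∈ S)).card ≤ 2 := by
    by_contra hlt
    push Not at hlt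
    obtain ⟨S, S', S'', hS, hS', hS'', h12, h13, h23⟩ := Finset.two_lt_card_iff.1 hlt
    obtain ⟨hS, hzS⟩ := Finset.mem_filter.1 hS
    obtain ⟨hS', hzS'⟩ := Finset.mem_filter.1 hS'
    obtain ⟨hS'', hzS''⟩ := Finset.mem_filter.1 hS''
    obtain ⟨p, hpS, hp'⟩ := hp S hS
    obtain ⟨q, hqS, hq'⟩ := hp S' hS'
    have a1 := hp' S' hS' h12.symm
    have a2 := hp' S'' hS'' h13.symm
    have a3 := hq' S hS h12
    have a4 := hq' S'' hS'' h23.symm
    have hzp : z ≠ p := fun h => a1 (h ▸ hzS')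
    have hzq : z ≠ q := fun h => a3 (h ▸ hzS)
    have hpq : p ≠ q := fun h => a3 (h ▸ hpS)
    refine bad (p := z) (q := p) (r := q) (hG S'' hS'') (hG S' hS') (hG S hS)
      (triple_mem hzp hzq hpq (Or.inl rfl)) ?_ ?_ ?_
    · simp [hzS'', a2, a4]
    · simp [hzS', a1, hqS]
    · simp [hzS, hpS, a3]
  have hle : C.card ≤ 3 := by
    have := Finset.card_filter_add_card_filter_not (s := C) (fun S => z ∈ S)
    omega
  obtain ⟨S₁, S₂, S₃, -, -, -, hCe⟩ := Finset.card_eq_three.1 (le_antisymm hle hge)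
  refine ⟨S₁, S₂, S₃, hG _ (by simp [hCe]), hG _ (by simp [hCe]), hG _ (by simp [hCe]),
    fun x => ?_⟩
  obtain ⟨S, hS, hx⟩ := hCc x
  rw [hCe] at hS
  simp only [Finset.mem_insert, Finset.mem_singleton] at hS
  rcases hS with rfl | rfl | rfl
  · exact Or.inl hx
  · exact Or.inr (Or.inl hx)
  · exact Or.inr (Or.inr hx)

open scoped Classical in
theorem determines {n k D : ℕ} (hn : n = 2 * k) (hk : 4 ≤ k) (hD : 6 * D ≤ k + 2) (z : Fin n)
    (Z : SimpleGraph (Fin n)) (hd : ∀ v, (univ.filter (fun w => Z.Adj v w)).card ≤ D)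
    (hC : ¬ HasC4 Z) : Determines (queries z Z) := by
  have key : ∀ α : queries z Z → Fin n, ∃ x, ∀ S, Good (queries z Z) k α S → x ∉ S := by
    intro α
    by_contra hcon
    push Not at hcon
    obtain ⟨S₁, S₂, S₃, h1, h2, h3, hc⟩ := three_cover hn hk hcon
    have c1 := two_le_priv hn hc h2.1 h3.1
    have c2 := two_le_priv (S₁ := S₂) (S₂ := S₁) (S₃ := S₃) hn
      (fun x => by have := hc x; tauto) h1.1 h3.1
    have c3 := two_le_priv (S₁ := S₃) (S₂ := S₁) (S₃ := S₂) hn
      (fun x => by have := hc x; tauto) h1.1 h2.1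
    have c4 := sum_priv hn hc h1.1 h2.1 h3.1
    apply hC
    by_cases a1 : 2 * D < (priv S₁ S₂ S₃).card
    · exact core hd h1 h2 h3 a1 c2 c3
    by_cases a2 : 2 * D < (priv S₂ S₁ S₃).card
    · exact core hd h2 h1 h3 a2 c1 (by rwa [priv_comm])
    have a3 : 2 * D < (priv S₃ S₁ S₂).card := by omega
    exact core hd h3 h1 h2 a3 (by rwa [priv_comm]) (by rwa [priv_comm])
  choose f hf using key
  refine ⟨f, fun c α hα => ?_⟩
  unfold NonMinority
  set S : Finset (Fin n) := univ.filter (fun v => c v = c (f α)) with hS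
  have hbig : k ≤ S.card := by
    by_contra hlt
    push Not at hlt
    refine hf α S ⟨by omega, fun T => ?_⟩ (by simp [hS])
    obtain ⟨ha, b, hb, hba, hbc⟩ := hα T
    exact ⟨ha, b, hb, hba, by simp [hS, hbc]⟩
  have h1 : (n : ℝ) = 2 * (k : ℝ) := by rw [hn]; push_cast; ring
  have h2 : (k : ℝ) ≤ (S.card : ℝ) := by exact_mod_cast hbig
  rw [h1]
  linarith


/-- three colourings of four types -/
def col (i : Fin 3) (t : Fin 4) : Bool :=
  match i with
  | 0 => decide (t = 0)
  | 1 => decide (t = 1 ∨ t = 3)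
  | 2 => decide (t = 2 ∨ t = 3)

theorem types (s t w : Fin 4) (h : ¬ (s ≠ t ∧ s ≠ w ∧ t ≠ w ∧ s ≠ 3 ∧ t ≠ 3 ∧ w ≠ 3)) :
    (∀ i, col i s = col i t ∨ col i s = col i w) ∨ (∀ i, col i t = col i s ∨ col i t = col i w) ∨
      (∀ i, col i w = col i s ∨ col i w = col i t) := by
  revert s t w
  decide

open scoped Classical in
theorem not_determines {n k : ℕ} (hn : n = 2 * k) (hk : 4 ≤ k) (z : Fin n)
    (Z : SimpleGraph (Fin n)) (hz : ∀ v, ¬ Z.Adj z v) (hC : HasC4 Z) :
    ¬ Determines (queries z Z) := by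
  rintro ⟨f, hf⟩
  obtain ⟨x, u, y, v, hxy, huv, h1, h2, h3, h4⟩ := hC
  have zx : z ≠ x := fun h => hz u (h ▸ h1)
  have zu : z ≠ u := fun h => hz y (h ▸ h2)
  have zy : z ≠ y := fun h => hz v (h ▸ h3)
  have zv : z ≠ v := fun h => hz x (h ▸ h4)
  have xu := h1.ne
  have uy := h2.ne
  have yv := h3.ne
  have vx := h4.ne
  have hF : ({x, u, y, v, z} : Finset (Fin n)).card ≤ 5 := Finset.card_le_five
  have hR : k - 1 ≤ (univ \ ({x, u, y, v, z} : Finset (Fin n))).card := by
    have := Finset.le_card_sdiff ({x, u, y, v, z} : Finset (Fin n)) univ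
    rw [Finset.card_univ, Fintype.card_fin] at this
    omega
  obtain ⟨W, hWR, hW⟩ := Finset.exists_subset_card_eq hR
  have hWn : ∀ p ∈ W, p ≠ x ∧ p ≠ u ∧ p ≠ y ∧ p ≠ v ∧ p ≠ z := by
    intro p hp
    have := hWR hp
    simp only [Finset.mem_sdiff, Finset.mem_univ, true_and, Finset.mem_insert,
      Finset.mem_singleton, not_or] at this
    exact this
  let τ : Fin n → Fin 4 := fun p =>
    if p ∈ W then 0 else if p = u ∨ p = v then 1 else if p = x ∨ p = y then 2 else 3
  have hτ0 : ∀ p, τ p = 0 ↔ p ∈ W := by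
    intro p
    simp only [τ]
    split_ifs <;> simp_all
  have hτ1 : ∀ p, τ p = 1 ↔ (p = u ∨ p = v) := by
    intro p
    have hu : u ∉ W := fun h => (hWn u h).2.1 rfl
    have hv : v ∉ W := fun h => (hWn v h).2.2.2.1 rfl
    simp only [τ]
    split_ifs with a1 a2 a3
    · simp only [zero_ne_one, false_iff, not_or]
      exact ⟨fun h => hu (h ▸ a1), fun h => hv (h ▸ a1)⟩
    · simp [a2]
    · simp [a2]
    · simp [a2]
  have hτ2 : ∀ p, τ p = 2 ↔ (p = x ∨ p = y) := by
    intro p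
    have hx : x ∉ W := fun h => (hWn x h).1 rfl
    have hy : y ∉ W := fun h => (hWn y h).2.2.1 rfl
    simp only [τ]
    split_ifs with a1 a2 a3
    · refine ⟨fun h => absurd h (by decide), ?_⟩
      rintro (rfl | rfl)
      · exact absurd a1 hx
      · exact absurd a1 hy
    · refine ⟨fun h => absurd h (by decide), ?_⟩
      rintro (rfl | rfl)
      · rcases a2 with a2 | a2
        · exact absurd a2 xu
        · exact absurd a2.symm vx
      · rcases a2 with a2 | a2
        · exact absurd a2.symm uy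
        · exact absurd a2 yv
    · simp [a3]
    · simp [a3]
  have hτz : τ z = 3 := by
    have hzW : z ∉ W := fun h => (hWn z h).2.2.2.2 rfl
    simp [τ, hzW, zx, zu, zy, zv]
  have hadj : ∀ p q, τ p = 1 → τ q = 2 → Z.Adj p q := by
    intro p q hp hq
    rw [hτ1] at hp
    rw [hτ2] at hq
    rcases hp with rfl | rfl <;> rcases hq with rfl | rfl
    · exact h1.symm
    · exact h2
    · exact h4
    · exact h3.symm
  -- the common answers
  have hans : ∀ T : queries z Z, ∃ a, ∀ i, ValidAnswer (fun p => col i (τ p)) T.1 a := by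
    rintro ⟨T, hT⟩
    unfold queries at hT
    simp only [Finset.mem_filter, Finset.mem_univ, true_and] at hT
    obtain ⟨hT3, hTz⟩ := hT
    obtain ⟨p, q, r, hpq, hpr, hqr, rfl⟩ := Finset.card_eq_three.1 hT3
    have hnt : ¬ (τ p ≠ τ q ∧ τ p ≠ τ r ∧ τ q ≠ τ r ∧ τ p ≠ 3 ∧ τ q ≠ 3 ∧ τ r ≠ 3) := by
      rintro ⟨b1, b2, b3, b4, b5, b6⟩
      rcases hTz with hzT | hTz
      · simp only [Finset.mem_insert, Finset.mem_singleton] at hzT
        rcases hzT with rfl | rfl | rfl
        · exact b4 hτz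
        · exact b5 hτz
        · exact b6 hτz
      · have hall : ∀ s t w : Fin 4, s ≠ t → s ≠ w → t ≠ w → s ≠ 3 → t ≠ 3 → w ≠ 3 →
            (s = 1 ∧ t = 2) ∨ (s = 1 ∧ w = 2) ∨ (t = 1 ∧ s = 2) ∨ (t = 1 ∧ w = 2) ∨
            (w = 1 ∧ s = 2) ∨ (w = 1 ∧ t = 2) := by decide
        rcases hall _ _ _ b1 b2 b3 b4 b5 b6 with h | h | h | h | h | h
        · exact hTz p (by simp) q (by simp) (hadj _ _ h.1 h.2)
        · exact hTz p (by simp) r (by simp) (hadj _ _ h.1 h.2)
        · exact hTz q (by simp) p (by simp) (hadj _ _ h.1 h.2)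
        · exact hTz q (by simp) r (by simp) (hadj _ _ h.1 h.2)
        · exact hTz r (by simp) p (by simp) (hadj _ _ h.1 h.2)
        · exact hTz r (by simp) q (by simp) (hadj _ _ h.1 h.2)
    rcases types _ _ _ hnt with h | h | h
    · refine ⟨p, fun i => ⟨by simp, ?_⟩⟩
      rcases h i with h | h
      · exact ⟨q, by simp, hpq.symm, h.symm⟩
      · exact ⟨r, by simp, hpr.symm, h.symm⟩
    · refine ⟨q, fun i => ⟨by simp, ?_⟩⟩
      rcases h i with h | h
      · exact ⟨p, by simp, hpq, h.symm⟩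
      · exact ⟨r, by simp, hqr.symm, h.symm⟩
    · refine ⟨r, fun i => ⟨by simp, ?_⟩⟩
      rcases h i with h | h
      · exact ⟨p, by simp, hpr, h.symm⟩
      · exact ⟨q, by simp, hqr, h.symm⟩
  choose α hα using hans
  have hNM : ∀ i, NonMinority (fun p => col i (τ p)) (f α) := fun i => hf _ α fun T => hα T i
  -- the small classes
  have hsmall : ∀ i, ((univ.filter (fun p => col i (τ p) = true)).card) = k - 1 := by
    have hpair : ∀ a b : Fin n, a ≠ b → a ∉ W → b ∉ W → (W ∪ {a, b}).card = k + 1 := by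
      intro a b hab ha hb
      rw [Finset.card_union_of_disjoint, hW, Finset.card_pair hab]
      · omega
      · rw [Finset.disjoint_right]
        intro c hc
        simp only [Finset.mem_insert, Finset.mem_singleton] at hc
        rcases hc with rfl | rfl
        · exact ha
        · exact hb
    have hcompl : ∀ a b : Fin n, a ≠ b → a ∉ W → b ∉ W →
        (univ \ (W ∪ {a, b})).card = k - 1 := by
      intro a b hab ha hb
      rw [Finset.card_sdiff_of_subset (Finset.subset_univ _), hpair a b hab ha hb,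
        Finset.card_univ, Fintype.card_fin]
      omega
    intro i
    fin_cases i
    · rw [← hW]
      congr 1
      ext p
      simp only [Finset.mem_filter, Finset.mem_univ, true_and]
      show decide (τ p = 0) = true ↔ _
      rw [decide_eq_true_iff]
      exact hτ0 p
    · rw [← hcompl x y hxy (fun h => (hWn x h).1 rfl) (fun h => (hWn y h).2.2.1 rfl)]
      congr 1
      ext p
      simp only [Finset.mem_filter, Finset.mem_univ, true_and, Finset.mem_sdiff,
        Finset.mem_union, Finset.mem_insert, Finset.mem_singleton, not_or]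
      show decide (τ p = 1 ∨ τ p = 3) = true ↔ _
      rw [decide_eq_true_iff, ← hτ0, ← not_or, ← hτ2]
      generalize τ p = t
      revert t
      decide
    · rw [← hcompl u v huv (fun h => (hWn u h).2.1 rfl) (fun h => (hWn v h).2.2.2.1 rfl)]
      congr 1
      ext p
      simp only [Finset.mem_filter, Finset.mem_univ, true_and, Finset.mem_sdiff,
        Finset.mem_union, Finset.mem_insert, Finset.mem_singleton, not_or]
      show decide (τ p = 2 ∨ τ p = 3) = true ↔ _
      rw [decide_eq_true_iff, ← hτ0, ← not_or, ← hτ1]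
      generalize τ p = t
      revert t
      decide
  have hex : ∀ t : Fin 4, ∃ i, col i t = true := by decide
  obtain ⟨i, hi⟩ := hex (τ (f α))
  have h5 := hNM i
  unfold NonMinority at h5
  simp only [hi] at h5
  rw [hsmall i, hn] at h5
  have h6 : ((k - 1 : ℕ) : ℝ) = (k : ℝ) - 1 := by
    rw [Nat.cast_sub (by omega)]
    simp
  rw [h6] at h5
  push_cast at h5
  linarith


theorem card_of_mem {n : ℕ} {z : Fin n} {Z : SimpleGraph (Fin n)} {T : Finset (Fin n)}
    (h : T ∈ queries z Z) : T.card = 3 := by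
  classical
  unfold queries at h
  exact (Finset.mem_filter.1 h).2.1

theorem codeg_one {n : ℕ} {z : Fin n} {Z : SimpleGraph (Fin n)} (hz : ∀ v, ¬ Z.Adj z v)
    {x y : Fin n} (h : Z.Adj x y) : coDegree (queries z Z) x y = 1 := by
  classical
  have zx : z ≠ x := fun e => hz y (e ▸ h)
  have zy : z ≠ y := fun e => hz x (e ▸ h.symm)
  unfold coDegree
  rw [Finset.card_eq_one]
  refine ⟨{z, x, y}, ?_⟩
  ext T
  simp only [Finset.mem_filter, Finset.mem_singleton]
  constructor
  · rintro ⟨hT, hx, hy⟩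
    have h3 := card_of_mem hT
    unfold queries at hT
    simp only [Finset.mem_filter, Finset.mem_univ, true_and] at hT
    rcases hT.2 with hzT | hno
    · symm
      apply Finset.eq_of_subset_of_card_le
      · intro w hw
        simp only [Finset.mem_insert, Finset.mem_singleton] at hw
        rcases hw with rfl | rfl | rfl
        · exact hzT
        · exact hx
        · exact hy
      · rw [h3, Finset.card_eq_three.2 ⟨z, x, y, zx, zy, h.ne, rfl⟩]
    · exact absurd h (hno x hx y hy)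
  · rintro rfl
    exact ⟨triple_mem zx zy h.ne (Or.inl rfl), by simp, by simp⟩

open scoped Classical in
theorem codeg_large {n D : ℕ} {z : Fin n} {Z : SimpleGraph (Fin n)}
    (hd : ∀ v, (univ.filter (fun w => Z.Adj v w)).card ≤ D) {x y : Fin n} (hxy : x ≠ y)
    (h : ¬ Z.Adj x y) : n ≤ coDegree (queries z Z) x y + 2 + 2 * D := by
  set N : Finset (Fin n) := {x, y} ∪ (univ.filter (fun w => Z.Adj x w) ∪
    univ.filter (fun w => Z.Adj y w)) with hN
  have h1 : N.card ≤ 2 + (D + D) := by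
    refine (Finset.card_union_le _ _).trans ?_
    have a1 : ({x, y} : Finset (Fin n)).card ≤ 2 := Finset.card_le_two
    have a2 := Finset.card_union_le (univ.filter (fun w => Z.Adj x w))
      (univ.filter (fun w => Z.Adj y w))
    have a3 := hd x
    have a4 := hd y
    omega
  have h2 : (univ \ N).card ≤ coDegree (queries z Z) x y := by
    unfold coDegree
    refine Finset.card_le_card_of_injOn (fun w => ({x, y, w} : Finset (Fin n))) ?_ ?_
    · intro w hw
      simp only [hN, Finset.coe_sdiff, Finset.coe_univ, Set.mem_sdiff, Set.mem_univ, true_and,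
        Finset.mem_coe, Finset.mem_union, Finset.mem_insert, Finset.mem_singleton,
        Finset.mem_filter, Finset.mem_univ, not_or] at hw
      obtain ⟨⟨b1, b2⟩, b3, b4⟩ := hw
      simp only [Finset.coe_filter, Set.mem_ofPred_eq]
      exact ⟨triple_mem hxy (Ne.symm b1) (Ne.symm b2) (Or.inr ⟨h, b3, b4⟩), by simp, by simp⟩
    · intro w hw w' hw' he
      simp only [hN, Finset.coe_sdiff, Finset.coe_univ, Set.mem_sdiff, Set.mem_univ, true_and,
        Finset.mem_coe, Finset.mem_union, Finset.mem_insert, Finset.mem_singleton,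
        Finset.mem_filter, Finset.mem_univ, not_or] at hw
      have h3 : w ∈ ({x, y, w'} : Finset (Fin n)) := by
        have : w ∈ ({x, y, w} : Finset (Fin n)) := by simp
        simp only at he
        rwa [he] at this
      simp only [Finset.mem_insert, Finset.mem_singleton] at h3
      rcases h3 with h3 | h3 | h3
      · exact absurd h3 hw.1.1
      · exact absurd h3 hw.1.2
      · exact h3
  have h3 := Finset.le_card_sdiff N (univ : Finset (Fin n))
  rw [Finset.card_univ, Fintype.card_fin] at h3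
  omega

/-- The set of the values `δ₂(Q)` (minimum co-degree over all pairs of distinct balls) taken over
all sets `Q` of triples that determine a non-minority ball.  By definition `m(n)` is its least
element. -/
def minCoDegrees (n : ℕ) : Set ℕ :=
  {d | ∃ Q : Finset (Finset (Fin n)), (∀ T ∈ Q, T.card = 3) ∧ Determines Q ∧
    IsLeast {e | ∃ x y : Fin n, x ≠ y ∧ coDegree Q x y = e} d}

/-- the balls `2 i` and `2 i + 1` are joined if both are smaller than `m` -/
def pairs (n m : ℕ) : SimpleGraph (Fin n) where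
  Adj x y := x ≠ y ∧ x.val / 2 = y.val / 2 ∧ x.val < m ∧ y.val < m
  symm := ⟨fun _ _ h => ⟨h.1.symm, h.2.1.symm, h.2.2.2, h.2.2.1⟩⟩
  loopless := ⟨fun _ h => h.1 rfl⟩

theorem pairs_unique {n m : ℕ} {x y w : Fin n} (h1 : (pairs n m).Adj x y)
    (h2 : (pairs n m).Adj x w) : y = w := by
  obtain ⟨a1, a2, -, -⟩ := h1
  obtain ⟨b1, b2, -, -⟩ := h2
  have a3 : x.val ≠ y.val := fun h => a1 (Fin.ext h)
  have b3 : x.val ≠ w.val := fun h => b1 (Fin.ext h)
  exact Fin.ext (by omega)

theorem even_case {n : ℕ} (hn : 8 ≤ n) (he : Even n) :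
    ∃ Q : Finset (Finset (Fin n)), (∀ T ∈ Q, T.card = 3) ∧ Determines Q ∧
      IsLeast {e | ∃ x y : Fin n, x ≠ y ∧ coDegree Q x y = e} 1 ∧
      ∃ z w : Fin n, ∀ x, x ≠ z → x ≠ w → ∃ y, y ≠ x ∧ coDegree Q x y = 1 := by
  classical
  obtain ⟨k, hk⟩ := he
  let z : Fin n := ⟨n - 1, by omega⟩
  let w : Fin n := ⟨n - 2, by omega⟩
  have hz : ∀ v, ¬ (pairs n (n - 2)).Adj z v := by
    rintro v ⟨-, -, h, -⟩
    simp only [z] at h
    omega
  have hd : ∀ v, (univ.filter (fun t => (pairs n (n - 2)).Adj v t)).card ≤ 1 := by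
    intro v
    rw [Finset.card_le_one]
    intro a ha b hb
    exact pairs_unique (Finset.mem_filter.1 ha).2 (Finset.mem_filter.1 hb).2
  have hC : ¬ HasC4 (pairs n (n - 2)) := by
    rintro ⟨x, u, y, v, -, huv, h1, -, -, h4⟩
    exact huv (pairs_unique h1 h4.symm)
  have hp : ∀ x : Fin n, x ≠ z → x ≠ w → ∃ y, (pairs n (n - 2)).Adj x y := by
    intro x hxz hxw
    have a1 : x.val ≠ n - 1 := fun h => hxz (Fin.ext h)
    have a2 : x.val ≠ n - 2 := fun h => hxw (Fin.ext h)
    have a3 := x.isLt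
    rcases Nat.even_or_odd' x.val with ⟨c, hc | hc⟩
    · refine ⟨⟨x.val + 1, by omega⟩, fun h => ?_, ?_, ?_, ?_⟩
      · have := congrArg Fin.val h
        simp at this
      · simp only; omega
      · omega
      · simp only; omega
    · refine ⟨⟨x.val - 1, by omega⟩, fun h => ?_, ?_, ?_, ?_⟩
      · have := congrArg Fin.val h
        simp only at this
        omega
      · simp only; omega
      · omega
      · simp only; omega
  refine ⟨queries z (pairs n (n - 2)), fun T => card_of_mem,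
    determines (k := k) (D := 1) (by omega) (by omega) (by omega) z _ hd hC, ?_, z, w, ?_⟩
  · constructor
    · obtain ⟨y, hy⟩ := hp ⟨0, by omega⟩ (by simp [z, Fin.ext_iff]; omega)
        (by simp [w, Fin.ext_iff]; omega)
      exact ⟨_, y, hy.ne, codeg_one hz hy⟩
    · rintro e ⟨x, y, hxy, rfl⟩
      by_cases h : (pairs n (n - 2)).Adj x y
      · rw [codeg_one hz h]
      · have := codeg_large (z := z) hd hxy h
        omega
  · intro x hxz hxw
    obtain ⟨y, hy⟩ := hp x hxz hxw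
    exact ⟨y, hy.ne.symm, codeg_one hz hy⟩

open scoped Classical in
/-- (1) Let `n = 2 k ≥ 8`, `z` a ball, `Z` a graph on the other balls with degrees at most `D`,
`6 D ≤ k + 2`.  The set of all triples that contain `z` or contain no edge of `Z` determines a
non-minority ball if and only if `Z` has no cycle of length four; its co-degrees are `1` at the
edges of `Z` and at least `n - 2 - 2 D` at all other pairs.
(2) For every even `n ≥ 8` some set of triples with minimum co-degree `1` determines a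
non-minority ball, where all balls but two are in a pair of co-degree `1`.
(3) `|m(n) - n / 2|` is unbounded. -/
theorem result :
    (∀ (n k D : ℕ) (z : Fin n) (Z : SimpleGraph (Fin n)), n = 2 * k → 4 ≤ k → 6 * D ≤ k + 2 →
      (∀ v, ¬ Z.Adj z v) → (∀ v, (univ.filter (fun w => Z.Adj v w)).card ≤ D) →
      (Determines (queries z Z) ↔ ¬ HasC4 Z) ∧
      (∀ x y, Z.Adj x y → coDegree (queries z Z) x y = 1) ∧
      ∀ x y, x ≠ y → ¬ Z.Adj x y → n ≤ coDegree (queries z Z) x y + 2 + 2 * D) ∧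
    (∀ n : ℕ, 8 ≤ n → Even n → ∃ Q : Finset (Finset (Fin n)), (∀ T ∈ Q, T.card = 3) ∧
      Determines Q ∧ IsLeast {e | ∃ x y : Fin n, x ≠ y ∧ coDegree Q x y = e} 1 ∧
      ∃ z w : Fin n, ∀ x, x ≠ z → x ≠ w → ∃ y, y ≠ x ∧ coDegree Q x y = 1) ∧
    ∀ C : ℝ, ∃ n : ℕ, 3 ≤ n ∧ ∃ m : ℕ, IsLeast (minCoDegrees n) m ∧
      C < |(m : ℝ) - (n : ℝ) / 2| := by
  refine ⟨fun n k D z Z hn hk hD hz hd => ⟨⟨fun h hC => not_determines hn hk z Z hz hC h,
    fun hC => determines hn hk hD z Z hd hC⟩, fun x y h => codeg_one hz h,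
    fun x y hxy h => codeg_large hd hxy h⟩, fun n hn he => even_case hn he, fun C => ?_⟩
  obtain ⟨N, hN⟩ := exists_nat_gt C
  obtain ⟨Q, hQ3, hQd, hQ1, -⟩ := even_case (n := 2 * (N + 4)) (by omega) (even_two_mul _)
  have h1 : 1 ∈ minCoDegrees (2 * (N + 4)) := ⟨Q, hQ3, hQd, hQ1⟩
  obtain ⟨m, hm⟩ : ∃ m, IsLeast (minCoDegrees (2 * (N + 4))) m :=
    ⟨sInf (minCoDegrees (2 * (N + 4))), Nat.sInf_mem ⟨1, h1⟩, fun d hd => Nat.sInf_le hd⟩
  refine ⟨2 * (N + 4), by omega, m, hm, ?_⟩
  have h2 : (m : ℝ) ≤ 1 := by exact_mod_cast hm.2 h1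
  have h3 : (m : ℝ) - ((2 * (N + 4) : ℕ) : ℝ) / 2 ≤ -(N : ℝ) - 3 := by
    push_cast
    linarith
  calc C < N := hN
    _ ≤ -((m : ℝ) - ((2 * (N + 4) : ℕ) : ℝ) / 2) := by linarith
    _ ≤ |(m : ℝ) - ((2 * (N + 4) : ℕ) : ℝ) / 2| := neg_le_abs _

end Pool.Agent.Results.MP_d92cd9_co.FourCycles
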